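import Pool.Agent.Q99.FAL.Stm2

/-!
# Project FAL: the state sum (lemma G, helper151)
-/

set_option autoImplicit false

namespace Pool.Agent.Q99.FAL

open Matrix Finset
open Pool.Agent.H550R3.Jones (WM IsMod IsInt br brf W irr)
open Pool.Agent.W715.VC (rt)
open Pool.Agent.W709.QAT (Piece run)
open Pool.Agent.Q191.TW (cs)
open Pool.Agent.Q191.LB (sg)
open Pool.Agent.Q191.SH (aw)
open Pool.Agent.Q99.FW (TZ Kg K2 Xm)

namespace GG

/-! ### gaps -/

/-- the first gap -/
def hd (G : List ℤ) : ℤ := G.head?.getD 0

/-- the last gap -/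
def ls (G : List ℤ) : ℤ := G.getLast?.getD 0

lemma hd_app {A R R' : List ℤ} {x x' : ℤ} (h : x ≤ x') : hd (A ++ x :: R) ≤ hd (A ++ x' :: R') := by
  cases A <;> simp [hd, h]

lemma ls_app (F F' R : List ℤ) {y y' : ℤ} (h : y ≤ y') : ls (F ++ y :: R) ≤ ls (F' ++ y' :: R) := by
  rcases List.eq_nil_or_concat R with rfl | ⟨R', z, rfl⟩
  · simp [ls, h]
  · have e1 : F ++ y :: (R' ++ [z]) = (F ++ y :: R') ++ [z] := by simp
    have e2 : F' ++ y' :: (R' ++ [z]) = (F' ++ y' :: R') ++ [z] := by simp
    rw [List.concat_eq_append, e1, e2]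
    unfold ls
    rw [List.getLast?_concat, List.getLast?_concat]

lemma split2 {G : List ℤ} {p : ℕ} (h : p + 2 ≤ G.length) :
    ∃ A x y r, G = A ++ x :: y :: r ∧ A.length = p := by
  have h1 : 2 ≤ (G.drop p).length := by rw [List.length_drop]; omega
  rcases hd : G.drop p with _ | ⟨x, _ | ⟨y, r⟩⟩
  · rw [hd] at h1; simp at h1
  · rw [hd] at h1; simp at h1
  · refine ⟨G.take p, x, y, r, ?_, ?_⟩
    · rw [← hd, List.take_append_drop]
    · rw [List.length_take]; omega

lemma split3 {G : List ℤ} {p : ℕ} (h : p + 3 ≤ G.length) :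
    ∃ A x g y r, G = A ++ x :: g :: y :: r ∧ A.length = p := by
  obtain ⟨A, x, g, r, rfl, hA⟩ := split2 (G := G) (p := p) (by omega)
  rcases r with _ | ⟨y, r⟩
  · simp at h; omega
  · exact ⟨A, x, g, y, r, rfl, hA⟩

lemma split4 {G : List ℤ} {p : ℕ} (h : p + 4 ≤ G.length) :
    ∃ A x g k y r, G = A ++ x :: g :: k :: y :: r ∧ A.length = p := by
  obtain ⟨A, x, g, k, r, rfl, hA⟩ := split3 (G := G) (p := p) (by omega)
  rcases r with _ | ⟨y, r⟩
  · simp at h; omega
  · exact ⟨A, x, g, k, y, r, rfl, hA⟩

/-- everything about the gaps above a piece -/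
structure Fct (T : Ty) (p n : ℕ) (q : Fin 4 → ℤ) (G : List ℤ) : Prop where
  len : (stp T p q G).length = up T n + 1
  nn : ∀ g ∈ stp T p q G, 0 ≤ g
  cn : ∀ c ∈ cls T p q G, 0 ≤ c
  sum : (stp T p q G).sum + (cls T p q G).sum = G.sum + (q 0 + q 1 + q 2 + q 3)
  clen : 2 * (cls T p q G).length + up T n = n + 2
  hd : hd G ≤ hd (stp T p q G)
  ls : ls G ≤ ls (stp T p q G)

lemma facts (T : Ty) (p n : ℕ) (hp : p + wd T ≤ n) (q : Fin 4 → ℤ) (hq : ∀ i, 0 ≤ q i)
    (G : List ℤ) (hl : G.length = n + 1) (hG : ∀ g ∈ G, 0 ≤ g) : Fct T p n q G := by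
  have q0 := hq 0
  have q1 := hq 1
  have q2 := hq 2
  have q3 := hq 3
  cases T with
  | V =>
    simp only [wd] at hp
    obtain ⟨A, x, g, y, r, rfl, hA⟩ := split3 (G := G) (p := p) (by omega)
    subst hA
    have e1 : (A ++ x :: g :: y :: r).drop A.length = x :: g :: y :: r := List.drop_left' rfl
    have e2 : (A ++ x :: g :: y :: r).take A.length = A := List.take_left' rfl
    have es : stp .V A.length q (A ++ x :: g :: y :: r) =
        A ++ (x + q 3) :: q 2 :: (y + q 1) :: r := by
      simp only [stp, e1, e2]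
    have ec : cls .V A.length q (A ++ x :: g :: y :: r) = [g + q 0] := by
      simp only [cls, e1]
    have ga := fun z (hz : z ∈ A) => hG z (by simp [hz])
    have gr := fun z (hz : z ∈ r) => hG z (by simp [hz])
    have gx := hG x (by simp)
    have gg := hG g (by simp)
    have gy := hG y (by simp)
    refine ⟨?_, ?_, ?_, ?_, ?_, ?_, ?_⟩
    · rw [es]; simp [up] at hl ⊢; omega
    · rw [es]; intro z hz
      simp only [List.mem_append, List.mem_cons] at hz
      rcases hz with hz | rfl | rfl | rfl | hz
      · exact ga z hz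
      · omega
      · omega
      · omega
      · exact gr z hz
    · rw [ec]; intro c hc
      simp only [List.mem_singleton] at hc
      omega
    · rw [es, ec]; simp; ring
    · rw [ec]; simp [up]; omega
    · rw [es]; exact hd_app (by omega)
    · rw [es]
      exact ls_app (A ++ [x, g]) (A ++ [x + q 3, q 2]) r (y := y) (y' := y + q 1) (by omega) |>
        fun h => by simpa using h
  | H =>
    simp only [wd] at hp
    obtain ⟨A, x, g, y, r, rfl, hA⟩ := split3 (G := G) (p := p) (by omega)
    subst hA
    have e1 : (A ++ x :: g :: y :: r).drop A.length = x :: g :: y :: r := List.drop_left' rfl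
    have e2 : (A ++ x :: g :: y :: r).take A.length = A := List.take_left' rfl
    have es : stp .H A.length q (A ++ x :: g :: y :: r) =
        A ++ (x + q 2) :: q 1 :: (y + q 0) :: r := by
      simp only [stp, e1, e2]
    have ec : cls .H A.length q (A ++ x :: g :: y :: r) = [g + q 3] := by
      simp only [cls, e1]
    have ga := fun z (hz : z ∈ A) => hG z (by simp [hz])
    have gr := fun z (hz : z ∈ r) => hG z (by simp [hz])
    have gx := hG x (by simp)
    have gg := hG g (by simp)
    have gy := hG y (by simp)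
    refine ⟨?_, ?_, ?_, ?_, ?_, ?_, ?_⟩
    · rw [es]; simp [up] at hl ⊢; omega
    · rw [es]; intro z hz
      simp only [List.mem_append, List.mem_cons] at hz
      rcases hz with hz | rfl | rfl | rfl | hz
      · exact ga z hz
      · omega
      · omega
      · omega
      · exact gr z hz
    · rw [ec]; intro c hc
      simp only [List.mem_singleton] at hc
      omega
    · rw [es, ec]; simp; ring
    · rw [ec]; simp [up]; omega
    · rw [es]; exact hd_app (by omega)
    · rw [es]
      exact ls_app (A ++ [x, g]) (A ++ [x + q 2, q 1]) r (y := y) (y' := y + q 0) (by omega) |>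
        fun h => by simpa using h
  | YL =>
    simp only [wd] at hp
    obtain ⟨A, x, y, r, rfl, hA⟩ := split2 (G := G) (p := p) (by omega)
    subst hA
    have e1 : (A ++ x :: y :: r).drop A.length = x :: y :: r := List.drop_left' rfl
    have e2 : (A ++ x :: y :: r).take A.length = A := List.take_left' rfl
    have es : stp .YL A.length q (A ++ x :: y :: r) =
        A ++ (x + q 3) :: q 2 :: q 1 :: (y + q 0) :: r := by
      simp only [stp, e1, e2]
    have ec : cls .YL A.length q (A ++ x :: y :: r) = [] := by
      simp only [cls]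
    have ga := fun z (hz : z ∈ A) => hG z (by simp [hz])
    have gr := fun z (hz : z ∈ r) => hG z (by simp [hz])
    have gx := hG x (by simp)
    have gy := hG y (by simp)
    refine ⟨?_, ?_, ?_, ?_, ?_, ?_, ?_⟩
    · rw [es]; simp [up] at hl ⊢; omega
    · rw [es]; intro z hz
      simp only [List.mem_append, List.mem_cons] at hz
      rcases hz with hz | rfl | rfl | rfl | rfl | hz
      · exact ga z hz
      · omega
      · omega
      · omega
      · omega
      · exact gr z hz
    · rw [ec]; intro c hc
      simp at hc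
    · rw [es, ec]; simp; ring
    · rw [ec]; simp [up]
    · rw [es]; exact hd_app (by omega)
    · rw [es]
      exact ls_app (A ++ [x]) (A ++ [x + q 3, q 2, q 1]) r (y := y) (y' := y + q 0) (by omega) |>
        fun h => by simpa using h
  | YR =>
    simp only [wd] at hp
    obtain ⟨A, x, y, r, rfl, hA⟩ := split2 (G := G) (p := p) (by omega)
    subst hA
    have e1 : (A ++ x :: y :: r).drop A.length = x :: y :: r := List.drop_left' rfl
    have e2 : (A ++ x :: y :: r).take A.length = A := List.take_left' rfl
    have es : stp .YR A.length q (A ++ x :: y :: r) =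
        A ++ (x + q 0) :: q 3 :: q 2 :: (y + q 1) :: r := by
      simp only [stp, e1, e2]
    have ec : cls .YR A.length q (A ++ x :: y :: r) = [] := by
      simp only [cls]
    have ga := fun z (hz : z ∈ A) => hG z (by simp [hz])
    have gr := fun z (hz : z ∈ r) => hG z (by simp [hz])
    have gx := hG x (by simp)
    have gy := hG y (by simp)
    refine ⟨?_, ?_, ?_, ?_, ?_, ?_, ?_⟩
    · rw [es]; simp [up] at hl ⊢; omega
    · rw [es]; intro z hz
      simp only [List.mem_append, List.mem_cons] at hz
      rcases hz with hz | rfl | rfl | rfl | rfl | hz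
      · exact ga z hz
      · omega
      · omega
      · omega
      · omega
      · exact gr z hz
    · rw [ec]; intro c hc
      simp at hc
    · rw [es, ec]; simp; ring
    · rw [ec]; simp [up]
    · rw [es]; exact hd_app (by omega)
    · rw [es]
      exact ls_app (A ++ [x]) (A ++ [x + q 0, q 3, q 2]) r (y := y) (y' := y + q 1) (by omega) |>
        fun h => by simpa using h
  | LL =>
    simp only [wd] at hp
    obtain ⟨A, x, g, k, y, r, rfl, hA⟩ := split4 (G := G) (p := p) (by omega)
    subst hA
    have e1 : (A ++ x :: g :: k :: y :: r).drop A.length = x :: g :: k :: y :: r :=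
      List.drop_left' rfl
    have e2 : (A ++ x :: g :: k :: y :: r).take A.length = A := List.take_left' rfl
    have es : stp .LL A.length q (A ++ x :: g :: k :: y :: r) =
        A ++ (x + q 3) :: (y + q 2) :: r := by
      simp only [stp, e1, e2]
    have ec : cls .LL A.length q (A ++ x :: g :: k :: y :: r) = [g + q 0, k + q 1] := by
      simp only [cls, e1]
    have ga := fun z (hz : z ∈ A) => hG z (by simp [hz])
    have gr := fun z (hz : z ∈ r) => hG z (by simp [hz])
    have gx := hG x (by simp)
    have gg := hG g (by simp)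
    have gk := hG k (by simp)
    have gy := hG y (by simp)
    refine ⟨?_, ?_, ?_, ?_, ?_, ?_, ?_⟩
    · rw [es]; simp [up] at hl ⊢; omega
    · rw [es]; intro z hz
      simp only [List.mem_append, List.mem_cons] at hz
      rcases hz with hz | rfl | rfl | hz
      · exact ga z hz
      · omega
      · omega
      · exact gr z hz
    · rw [ec]; intro c hc
      simp only [List.mem_cons, List.not_mem_nil, or_false] at hc
      omega
    · rw [es, ec]; simp; ring
    · rw [ec]; simp [up]; omega
    · rw [es]; exact hd_app (by omega)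
    · rw [es]
      exact ls_app (A ++ [x, g, k]) (A ++ [x + q 3]) r (y := y) (y' := y + q 2) (by omega) |>
        fun h => by simpa using h
  | LR =>
    simp only [wd] at hp
    obtain ⟨A, x, g, k, y, r, rfl, hA⟩ := split4 (G := G) (p := p) (by omega)
    subst hA
    have e1 : (A ++ x :: g :: k :: y :: r).drop A.length = x :: g :: k :: y :: r :=
      List.drop_left' rfl
    have e2 : (A ++ x :: g :: k :: y :: r).take A.length = A := List.take_left' rfl
    have es : stp .LR A.length q (A ++ x :: g :: k :: y :: r) =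
        A ++ (x + q 2) :: (y + q 1) :: r := by
      simp only [stp, e1, e2]
    have ec : cls .LR A.length q (A ++ x :: g :: k :: y :: r) = [g + q 3, k + q 0] := by
      simp only [cls, e1]
    have ga := fun z (hz : z ∈ A) => hG z (by simp [hz])
    have gr := fun z (hz : z ∈ r) => hG z (by simp [hz])
    have gx := hG x (by simp)
    have gg := hG g (by simp)
    have gk := hG k (by simp)
    have gy := hG y (by simp)
    refine ⟨?_, ?_, ?_, ?_, ?_, ?_, ?_⟩
    · rw [es]; simp [up] at hl ⊢; omega
    · rw [es]; intro z hz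
      simp only [List.mem_append, List.mem_cons] at hz
      rcases hz with hz | rfl | rfl | hz
      · exact ga z hz
      · omega
      · omega
      · exact gr z hz
    · rw [ec]; intro c hc
      simp only [List.mem_cons, List.not_mem_nil, or_false] at hc
      omega
    · rw [es, ec]; simp; ring
    · rw [ec]; simp [up]; omega
    · rw [es]; exact hd_app (by omega)
    · rw [es]
      exact ls_app (A ++ [x, g, k]) (A ++ [x + q 2]) r (y := y) (y' := y + q 1) (by omega) |>
        fun h => by simpa using h

/-! ### labels -/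

lemma str_head (s g g2 : ℤ) (R : List ℤ) : str s (g :: g2 :: R) = str (s - g) (0 :: g2 :: R) := by
  simp [str]

lemma str_last : ∀ (L : List ℤ) (s a b : ℤ), str s (L ++ [a]) = str s (L ++ [b])
  | [], _, _, _ => rfl
  | [x], s, a, b => by simp [str]
  | x :: y :: L, s, a, b => by
    have := str_last (y :: L) (s - x) a b
    simp only [List.cons_append, str] at this ⊢
    rw [this]

lemma cor_nonneg {N : ℕ} (x : Fin 6 → Fin N) : ∀ i, 0 ≤ cor (zz x) i := by
  intro i
  fin_cases i <;> simp [cor, zz] <;> positivity

lemma cor_sum {N : ℕ} (x : Fin 6 → Fin N) :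
    cor (zz x) 0 + cor (zz x) 1 + cor (zz x) 2 + cor (zz x) 3 = n1 (zz x) + n2 (zz x) := by
  simp [cor, n1, n2]; ring

/-- a list of sums -/
lemma sum_ge {L : List ℤ} {u : ℤ} (h : ∀ c ∈ L, u ≤ c) : (L.length : ℤ) * u ≤ L.sum := by
  induction L with
  | nil => simp
  | cons a L ih =>
    have h1 := h a (by simp)
    have h2 := ih fun c hc => h c (by simp [hc])
    simp only [List.length_cons, List.sum_cons]
    push_cast
    linarith

lemma sum_gt {L : List ℤ} {u : ℤ} (h : ∀ c ∈ L, u ≤ c) (h' : ∃ c ∈ L, c ≠ u) :
    (L.length : ℤ) * u < L.sum := by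
  induction L with
  | nil => simp at h'
  | cons a L ih =>
    have h1 := h a (by simp)
    have h2 : ∀ c ∈ L, u ≤ c := fun c hc => h c (by simp [hc])
    simp only [List.length_cons, List.sum_cons]
    push_cast
    obtain ⟨c, hc, hcu⟩ := h'
    rcases List.mem_cons.1 hc with rfl | hc
    · have h3 := sum_ge h2
      have h4 : u < c := lt_of_le_of_ne h1 (Ne.symm hcu)
      linarith
    · have h3 := ih h2 ⟨c, hc, hcu⟩
      linarith

lemma sum_eq' {L : List ℤ} {u : ℤ} (h : ∀ c ∈ L, c = u) : L.sum = (L.length : ℤ) * u := by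
  induction L with
  | nil => simp
  | cons a L ih =>
    have h1 := h a (by simp)
    have h2 := ih fun c hc => h c (by simp [hc])
    simp only [List.length_cons, List.sum_cons]
    push_cast
    rw [h1, h2]; ring

/-- the state sum vanishes if an outer gap is positive -/
lemma SD_zero (N : ℕ) : ∀ (D : List Pc) (n : ℕ), Val D n → ∀ G : List ℤ, G.length = n + 1 →
    (∀ g ∈ G, 0 ≤ g) → (0 < hd G ∨ 0 < ls G) → SD N D G = 0
  | [], n, hv, G, hl, hG, hp => by
    rw [SD, if_neg]
    rintro rfl
    simp [hd, ls] at hp
  | P :: D, n, hv, G, hl, hG, hp => by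
    rw [SD]
    refine Finset.sum_eq_zero fun x _ => ?_
    split_ifs with hc
    · have F := facts P.ty P.p n hv.1 (cor (zz x)) (cor_nonneg x) G hl hG
      rw [SD_zero N D _ hv.2 _ F.len F.nn, mul_zero]
      have := F.hd
      have := F.ls
      rcases hp with hp | hp
      · left; linarith
      · right; linarith
    · rfl

/-! ### linearity and locality -/

variable {N : ℕ} {v : ℂ}

lemma run_cons (P : Piece) (D : List Piece) (f : List (Fin N) → ℂ) :
    run N v (P :: D) f = run N v D (P.act N v f) := rfl

lemma run_app (D D' : List Piece) (f : List (Fin N) → ℂ) :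
    run N v (D ++ D') f = run N v D' (run N v D f) := by
  unfold run
  rw [List.foldl_append]

lemma act_add (P : Piece) (f g : List (Fin N) → ℂ) :
    P.act N v (fun l => f l + g l) = fun l => P.act N v f l + P.act N v g l := by
  funext l
  cases P with
  | cup i =>
    simp only [Piece.act]
    rcases l.drop i with _ | ⟨a, _ | ⟨b, r⟩⟩
    · simp
    · simp
    · simp only [mul_add]
  | cap i =>
    simp only [Piece.act, mul_add, Finset.sum_add_distrib]
  | twist i σ m =>
    simp only [Piece.act]
    rcases l.drop i with _ | ⟨a, _ | ⟨b, r⟩⟩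
    · simp
    · simp
    · simp only [mul_add, Finset.sum_add_distrib]

lemma act_smul (P : Piece) (c : ℂ) (f : List (Fin N) → ℂ) :
    P.act N v (fun l => c * f l) = fun l => c * P.act N v f l := by
  funext l
  cases P with
  | cup i =>
    simp only [Piece.act]
    rcases l.drop i with _ | ⟨a, _ | ⟨b, r⟩⟩
    · simp
    · simp
    · simp only; ring
  | cap i =>
    simp only [Piece.act, Finset.mul_sum]
    exact Finset.sum_congr rfl fun _ _ => by ring
  | twist i σ m =>
    simp only [Piece.act]
    rcases l.drop i with _ | ⟨a, _ | ⟨b, r⟩⟩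
    · simp
    · simp
    · simp only [Finset.mul_sum]
      exact Finset.sum_congr rfl fun _ _ => by ring

lemma run_add : ∀ (D : List Piece) (f g : List (Fin N) → ℂ),
    run N v D (fun l => f l + g l) = fun l => run N v D f l + run N v D g l
  | [], _, _ => rfl
  | P :: D, f, g => by
    rw [run_cons, run_cons, run_cons, act_add, run_add D]

lemma run_smul : ∀ (D : List Piece) (c : ℂ) (f : List (Fin N) → ℂ),
    run N v D (fun l => c * f l) = fun l => c * run N v D f l
  | [], _, _ => rfl
  | P :: D, c, f => by
    rw [run_cons, run_cons, act_smul, run_smul D]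

lemma run_zero (D : List Piece) : run N v D (fun _ => 0) = fun _ => 0 := by
  have := run_smul (v := v) D 0 (fun _ : List (Fin N) => (0 : ℂ))
  simpa using this

lemma run_sum {ι : Type} (D : List Piece) (s : Finset ι) (f : ι → List (Fin N) → ℂ) :
    run N v D (fun l => ∑ i ∈ s, f i l) = fun l => ∑ i ∈ s, run N v D (f i) l := by
  classical
  induction s using Finset.induction_on with
  | empty => simp only [Finset.sum_empty]; exact run_zero D
  | insert i s hi ih => simp only [Finset.sum_insert hi]; rw [run_add, ih]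

lemma run_ite (D : List Piece) (C : Prop) [Decidable C] (c : ℂ) (f : List (Fin N) → ℂ) :
    run N v D (fun l => if C then c * f l else 0) = fun l => if C then c * run N v D f l else 0 := by
  split_ifs
  · exact run_smul D c f
  · exact run_zero D

/-- dependence on the values on lists of length `n` -/
def Loc (N : ℕ) (v : ℂ) (n m : ℕ) (D : List Piece) : Prop :=
  ∀ f g : List (Fin N) → ℂ, (∀ l, l.length = n → f l = g l) →
    ∀ l, l.length = m → run N v D f l = run N v D g l

lemma Loc_nil (n : ℕ) : Loc N v n n [] := fun _ _ h l hl => h l hl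

lemma Loc.app {n k m : ℕ} {D D' : List Piece} (h : Loc N v n k D) (h' : Loc N v k m D') :
    Loc N v n m (D ++ D') := by
  intro f g hfg l hl
  rw [run_app, run_app]
  exact h' _ _ (h f g hfg) l hl

lemma Loc_cup (n i : ℕ) : Loc N v n (n + 2) [Piece.cup i] := by
  intro f g hfg l hl
  show Piece.act N v (.cup i) f l = Piece.act N v (.cup i) g l
  simp only [Piece.act]
  rcases hd : l.drop i with _ | ⟨a, _ | ⟨b, r⟩⟩
  · rfl
  · rfl
  · simp only
    rw [hfg]
    have h1 : (l.take i ++ l.drop i).length = n + 2 := by rw [List.take_append_drop, hl]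
    rw [hd] at h1
    simp at h1 ⊢
    omega

lemma Loc_cap (n i : ℕ) : Loc N v (n + 2) n [Piece.cap i] := by
  intro f g hfg l hl
  show Piece.act N v (.cap i) f l = Piece.act N v (.cap i) g l
  simp only [Piece.act]
  refine Finset.sum_congr rfl fun q _ => ?_
  rw [hfg]
  have h1 : (l.take i ++ l.drop i).length = n := by rw [List.take_append_drop, hl]
  rw [List.length_append] at h1
  rw [List.length_append, List.length_cons, List.length_cons]
  omega

lemma Loc_tw (n i m : ℕ) (σ : Bool) : Loc N v n n [Piece.twist i σ m] := by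
  intro f g hfg l hl
  show Piece.act N v (.twist i σ m) f l = Piece.act N v (.twist i σ m) g l
  simp only [Piece.act]
  rcases hd : l.drop i with _ | ⟨a, _ | ⟨b, r⟩⟩
  · rfl
  · rfl
  · simp only
    refine Finset.sum_congr rfl fun q _ => ?_
    rw [hfg]
    have h1 : (l.take i ++ l.drop i).length = n := by rw [List.take_append_drop, hl]
    rw [hd] at h1
    simp only [List.length_append, List.length_cons] at h1 ⊢
    omega

lemma Loc_cw (n : ℕ) (σ : Bool) : ∀ w : List ℕ, Loc N v n n (Pool.Agent.Q191.FT.cw σ w)
  | [] => Loc_nil n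
  | j :: w => (Loc_tw n j 1 σ).app (Loc_cw n σ w)

lemma Loc_circ (n i k : ℕ) : Loc N v n n (Pool.Agent.Q191.FT.circ i k) :=
  (Loc_cup n (i + k)).app ((Loc_cw (n + 2) true _).app (Loc_cap n (i + k)))

lemma Loc_circs (n i k : ℕ) : ∀ p : ℕ, Loc N v n n (Pool.Agent.Q191.FT.circs i k p)
  | 0 => Loc_nil n
  | p + 1 => by
    have : Pool.Agent.Q191.FT.circs i k (p + 1) =
        Pool.Agent.Q191.FT.circ i k ++ Pool.Agent.Q191.FT.circs i k p := by
      simp [Pool.Agent.Q191.FT.circs, List.replicate_succ]
    rw [this]
    exact (Loc_circ n i k).app (Loc_circs n i k p)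

lemma Loc_aw (n i m k : ℕ) (σ : Bool) : Loc N v n n (aw i σ m k) :=
  (Loc_circs n i 2 k).app (Loc_tw n i m σ)

lemma Loc_els (P : Pc) (n : ℕ) (h : P.p + wd P.ty ≤ n) : Loc N v n (up P.ty n) (els P) := by
  obtain ⟨T, p, σ, m⟩ := P
  cases T with
  | V => exact Loc_aw n p m 1 σ
  | H => exact (Loc_cup n (p + 2)).app ((Loc_aw (n + 2) (p + 1) m 1 σ).app (Loc_cap n p))
  | YL => exact (Loc_cup n (p + 1)).app (Loc_aw (n + 2) p m 1 σ)
  | YR => exact (Loc_cup n p).app (Loc_aw (n + 2) (p + 1) m 1 σ)
  | LL =>
    simp only [wd] at h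
    obtain ⟨k, rfl⟩ : ∃ k, n = k + 2 := ⟨n - 2, by omega⟩
    exact (Loc_aw (k + 2) p m 1 σ).app (Loc_cap k (p + 1))
  | LR =>
    simp only [wd] at h
    obtain ⟨k, rfl⟩ : ∃ k, n = k + 2 := ⟨n - 2, by omega⟩
    exact (Loc_aw (k + 2) (p + 1) m 1 σ).app (Loc_cap k p)

lemma Loc_D : ∀ (D : List Pc) (n : ℕ), Val D n → Loc N v n 1 (D.flatMap els)
  | [], n, hv => by
    have : n = 1 := hv
    subst this
    exact Loc_nil 1
  | P :: D, n, hv => by
    rw [List.flatMap_cons]
    exact (Loc_els P n hv.1).app (Loc_D D _ hv.2)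

/-- outer gaps may be moved to the base label -/
lemma outer (N : ℕ) (h : 0 < N) (hZ : ∀ (D : List Pc) (n : ℕ), Val D n →
    ∀ (s : ℤ) (G : List ℤ), G.length = n + 1 → (∀ g ∈ G, 0 ≤ g) →
    2 * G.sum < ((n : ℤ) - 1) * (N - 1) →
    run N (rt N) (D.flatMap els) (UU N (str s G)) [⟨0, h⟩] = 0) (D : List Pc) (n : ℕ)
    (hv : Val D n) (s : ℤ) (G : List ℤ) (hl : G.length = n + 1) (h2 : 2 ≤ G.length)
    (hG : ∀ g ∈ G, 0 ≤ g) (hs : 2 * G.sum = ((n : ℤ) - 1) * (N - 1))
    (hp : 0 < hd G ∨ 0 < ls G) :
    run N (rt N) (D.flatMap els) (UU N (str s G)) [⟨0, h⟩] = 0 := by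
  rcases G with _ | ⟨a, _ | ⟨b, R⟩⟩
  · simp at h2
  · simp at h2
  rw [str_head]
  obtain ⟨M, c, hM⟩ : ∃ M c, b :: R = M ++ [c] := by
    rcases List.eq_nil_or_concat (b :: R) with h' | ⟨M, c, h'⟩
    · simp at h'
    · exact ⟨M, c, by simpa using h'⟩
  rw [hM]
  have e1 : str (s - a) (0 :: (M ++ [c])) = str (s - a) (0 :: (M ++ [0])) := by
    have := str_last (0 :: M) (s - a) c 0
    simpa using this
  rw [e1]
  have ha := hG a (by simp)
  have hc : 0 ≤ c := hG c (by rw [hM]; simp)
  have hM' : ∀ g ∈ M, 0 ≤ g := fun g hg => hG g (by rw [hM]; simp [hg])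
  have hla : hd (a :: b :: R) = a := by simp [hd]
  have hlc : ls (a :: b :: R) = c := by
    have e2 : a :: (M ++ [c]) = (a :: M) ++ [c] := rfl
    rw [hM, e2]
    unfold ls
    rw [List.getLast?_concat]
    rfl
  rw [hla, hlc] at hp
  rw [hM] at hs hl
  refine hZ D n hv _ _ ?_ ?_ ?_
  · simp at hl ⊢; omega
  · intro g hg
    simp only [List.mem_cons, List.mem_append, List.not_mem_nil, or_false] at hg
    rcases hg with rfl | hg | rfl
    · exact le_rfl
    · exact hM' g hg
    · exact le_rfl
  · rw [← hs]
    simp only [List.sum_cons, List.sum_append, List.sum_nil]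
    rcases hp with hp | hp <;> linarith

end GG

open GG in
/-- **Lemma G.** -/
theorem task_G : S_G := by
  intro hTR hZ' N h D
  have hZ := hZ' hTR N h
  induction D with
  | nil =>
    intro n hv
    have hn : n = 1 := hv
    subst hn
    refine ⟨1, by simp, fun s G hl hG h0 h1 hs => ?_⟩
    rcases G with _ | ⟨a, _ | ⟨b, _ | ⟨c, R⟩⟩⟩
    · simp at hl
    · simp at hl
    · simp at h0 h1
      subst h0 h1
      simp [SD, run, UU, uu, str, ph, cs, nu]
    · simp at hl
  | cons P D ih =>
    intro n hv
    obtain ⟨θ', hθ', IH⟩ := ih (up P.ty n) hv.2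
    obtain ⟨T, p, σ, m⟩ := P
    obtain ⟨hv1, hv2⟩ := hv
    simp only at hv1 hv2 IH
    obtain ⟨θ, hθ, H⟩ := hTR T N h p n σ m hv1
    refine ⟨θ * θ', by rw [norm_mul, hθ, hθ', one_mul], fun s G hl hG h0 h1 hs => ?_⟩
    obtain ⟨ε, hε, hrun⟩ := H s G hl hG
    rw [List.flatMap_cons, run_app, SD]
    have e1 := Loc_D (v := rt N) D (up T n) hv2 _ _ (fun l hl => hrun l hl) [⟨0, h⟩] rfl
    rw [e1, run_smul]
    simp only
    rw [run_sum]
    simp only [run_ite]
    rw [List.map_cons, List.sum_cons, pow_add]
    have key : ∀ x : Fin 6 → Fin N, (if n1 (zz x) + n2 (zz x) = (N : ℤ) - 1 ∧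
        (∀ c ∈ cls T p (cor (zz x)) G, (N : ℤ) ∣ c + 1) then
          wt6 N (sg σ * m) (zz x) * ε x * run N (rt N) (D.flatMap els)
            (UU N (str s (stp T p (cor (zz x)) G))) [⟨0, h⟩] else 0) =
        θ' * (N : ℂ) ^ (D.map fun P => ex P.ty).sum * nu N s *
          (if n1 (zz x) + n2 (zz x) = (N : ℤ) - 1 ∧
            (∀ c ∈ cls T p (cor (zz x)) G, c = N - 1) then
          wt6 N (sg σ * m) (zz x) * SD N D (stp T p (cor (zz x)) G) else 0) := by
      intro x
      have F := facts T p n hv1 (cor (zz x)) (cor_nonneg x) G hl hG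
      by_cases hx : n1 (zz x) + n2 (zz x) = (N : ℤ) - 1
      swap
      · rw [if_neg (fun h => hx h.1), if_neg (fun h => hx h.1), mul_zero]
      by_cases hc : ∀ c ∈ cls T p (cor (zz x)) G, c = (N : ℤ) - 1
      · have hc' : ∀ c ∈ cls T p (cor (zz x)) G, (N : ℤ) ∣ c + 1 := by
          intro c hcm
          rw [hc c hcm]
          simp
        rw [if_pos ⟨hx, hc'⟩, if_pos ⟨hx, hc⟩, hε x hc, mul_one]
        have hsum : 2 * (stp T p (cor (zz x)) G).sum = (((up T n : ℕ) : ℤ) - 1) * (N - 1) := by
          have a1 := F.sum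
          have a2 := sum_eq' hc
          have a3 : (2 : ℤ) * ((cls T p (cor (zz x)) G).length : ℤ) + (up T n : ℕ) = n + 2 := by
            exact_mod_cast F.clen
          rw [cor_sum, hx, a2] at a1
          linear_combination 2 * a1 + hs - ((N : ℤ) - 1) * a3
        have hh0 : 0 ≤ hd (stp T p (cor (zz x)) G) := by
          have := F.hd
          have : hd G = 0 := by simp [hd, h0]
          linarith
        have hl0 : 0 ≤ ls (stp T p (cor (zz x)) G) := by
          have := F.ls
          have : ls G = 0 := by simp [ls, h1]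
          linarith
        by_cases hpos : 0 < hd (stp T p (cor (zz x)) G) ∨ 0 < ls (stp T p (cor (zz x)) G)
        · rw [SD_zero N D _ hv2 _ F.len F.nn hpos]
          have hlen : 2 ≤ (stp T p (cor (zz x)) G).length := by
            rw [F.len]
            cases T <;> simp only [up, wd] at hv1 ⊢ <;> omega
          rw [outer N h hZ D _ hv2 s _ F.len hlen F.nn hsum hpos, mul_zero, mul_zero]
        · push Not at hpos
          have hne : stp T p (cor (zz x)) G ≠ [] := by
            intro h'
            have := F.len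
            rw [h'] at this
            simp at this
          have r1 : (stp T p (cor (zz x)) G).head? = some 0 := by
            have e : hd (stp T p (cor (zz x)) G) = 0 := le_antisymm hpos.1 hh0
            unfold hd at e
            rcases h' : (stp T p (cor (zz x)) G).head? with _ | y
            · rw [List.head?_eq_none_iff] at h'
              exact absurd h' hne
            · rw [h'] at e; simp at e; rw [e]
          have r2 : (stp T p (cor (zz x)) G).getLast? = some 0 := by
            have e : ls (stp T p (cor (zz x)) G) = 0 := le_antisymm hpos.2 hl0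
            unfold ls at e
            rcases h' : (stp T p (cor (zz x)) G).getLast? with _ | y
            · rw [List.getLast?_eq_none_iff] at h'
              exact absurd h' hne
            · rw [h'] at e; simp at e; rw [e]
          rw [IH s _ F.len F.nn r1 r2 hsum]
          ring
      · have hneg : ¬ (n1 (zz x) + n2 (zz x) = (N : ℤ) - 1 ∧
            (∀ c ∈ cls T p (cor (zz x)) G, c = (N : ℤ) - 1)) := fun h => hc h.2
        rw [if_neg hneg, mul_zero]
        split_ifs with hc'
        · have hge : ∀ c ∈ cls T p (cor (zz x)) G, (N : ℤ) - 1 ≤ c := by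
            intro c hcm
            have h3 := Int.le_of_dvd (by have := F.cn c hcm; omega) (hc'.2 c hcm)
            omega
          push Not at hc
          have hgt := sum_gt hge hc
          have hsum : 2 * (stp T p (cor (zz x)) G).sum < (((up T n : ℕ) : ℤ) - 1) * (N - 1) := by
            have a1 := F.sum
            have a3 : (2 : ℤ) * ((cls T p (cor (zz x)) G).length : ℤ) + (up T n : ℕ) = n + 2 := by
              exact_mod_cast F.clen
            rw [cor_sum, hx] at a1
            have a4 : (((up T n : ℕ) : ℤ) - 1) * ((N : ℤ) - 1) =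
                2 * (stp T p (cor (zz x)) G).sum + 2 * ((cls T p (cor (zz x)) G).sum -
                  ((cls T p (cor (zz x)) G).length : ℤ) * ((N : ℤ) - 1)) := by
              linear_combination ((N : ℤ) - 1) * a3 - 2 * a1 - hs
            rw [a4]
            linarith
          rw [hZ D _ hv2 s _ F.len F.nn hsum, mul_zero]
        · rfl
    rw [Finset.sum_congr rfl fun x _ => key x, ← Finset.mul_sum]
    simp only
    ring

end Pool.Agent.Q99.FAL
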