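import Pool.Agent.Q99.FAL.Stm3
import Pool.Agent.Q151.FW.Tri0

/-!
# Project FAL: the maximum is a positive angle structure (lemma MAX, helper151)
-/

set_option autoImplicit false

namespace Pool.Agent.Q99.FAL

open Matrix Finset Filter Topology MeasureTheory
open Pool.Agent.Q191.TW (cs)
open Pool.Agent.W719.BS (D LL)
open Pool.Agent.W358.BSTay (gg gg_deriv)

namespace MX

lemma hh_cont : Continuous hh := by
  unfold hh
  have := Pool.Agent.W719.BS.LL_cont
  fun_prop

lemma hh_zero : hh 0 = 0 := by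
  unfold hh
  rw [sub_zero, Pool.Agent.W719.BS.LL_half]
  simp [LL]

lemma hh_half : hh (1 / 2) = 0 := by
  unfold hh
  rw [sub_self, Pool.Agent.W719.BS.LL_half]
  simp [LL]

/-- the derivative of `hh` -/
lemma hh_der {x : ℝ} (h0 : 0 < x) (h1 : x < 1 / 2) :
    HasDerivAt hh (-Real.log (Real.tan (Real.pi * x))) x := by
  have hpi := Real.pi_pos
  have a1 := Pool.Agent.Q151.FW.LL_der h0 (by linarith)
  have a2 : HasDerivAt (fun y : ℝ => LL (1 / 2 - y)) (gg (1 / 2 - x) * (-1)) x := by
    have b1 := Pool.Agent.Q151.FW.LL_der (x := 1 / 2 - x) (by linarith) (by linarith)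
    have b2 : HasDerivAt (fun y : ℝ => 1 / 2 - y) (-1) x := (hasDerivAt_id x).const_sub (1 / 2)
    exact b1.comp x b2
  have a3 := (a1.add a2).neg
  have e : -Real.log (Real.tan (Real.pi * x)) = -(gg x + gg (1 / 2 - x) * (-1)) := by
    have s1 : 0 < Real.sin (Real.pi * x) :=
      Real.sin_pos_of_pos_of_lt_pi (by positivity) (by nlinarith)
    have s2 : 0 < Real.cos (Real.pi * x) :=
      Real.cos_pos_of_mem_Ioo ⟨by nlinarith, by nlinarith⟩
    unfold gg
    have e1 : Real.pi * (1 / 2 - x) = Real.pi / 2 - Real.pi * x := by ring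
    rw [e1, Real.sin_pi_div_two_sub, Real.tan_eq_sin_div_cos, Real.log_div s1.ne' s2.ne',
      Real.log_mul two_ne_zero s1.ne', Real.log_mul two_ne_zero s2.ne']
    ring
  rw [e]
  exact a3

lemma ltan_mono : StrictMonoOn (fun x => Real.log (Real.tan (Real.pi * x))) (Set.Ioo 0 (1 / 2)) := by
  intro x hx y hy hxy
  have hpi := Real.pi_pos
  have h1 : 0 < Real.tan (Real.pi * x) :=
    Real.tan_pos_of_pos_of_lt_pi_div_two (by have := hx.1; positivity) (by nlinarith [hx.2])
  have h2 : Real.tan (Real.pi * x) < Real.tan (Real.pi * y) :=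
    Real.tan_lt_tan_of_lt_of_lt_pi_div_two (by nlinarith [hx.1]) (by nlinarith [hy.2])
      (by nlinarith)
  exact Real.log_lt_log h1 h2

lemma hh_concave : ConcaveOn ℝ (Set.Icc 0 (1 / 2)) hh := by
  apply AntitoneOn.concaveOn_of_deriv (convex_Icc _ _) hh_cont.continuousOn
  · rw [interior_Icc]
    exact fun x hx => (hh_der hx.1 hx.2).differentiableAt.differentiableWithinAt
  · rw [interior_Icc]
    intro x hx y hy hxy
    rw [(hh_der hx.1 hx.2).deriv, (hh_der hy.1 hy.2).deriv]
    have := ltan_mono.monotoneOn hx hy hxy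
    linarith

/-- lower bound near `0` -/
lemma hh_low {s : ℝ} (h0 : 0 < s) (h1 : s < 1 / 2) :
    s * (-Real.log (Real.tan (Real.pi * s))) ≤ hh s := by
  obtain ⟨c, hc, e⟩ := exists_hasDerivAt_eq_slope hh (fun x => -Real.log (Real.tan (Real.pi * x)))
    h0 hh_cont.continuousOn (fun x hx => hh_der hx.1 (hx.2.trans h1))
  rw [hh_zero, sub_zero, sub_zero, eq_div_iff h0.ne'] at e
  rw [← e]
  have := ltan_mono.monotoneOn ⟨hc.1, hc.2.trans h1⟩ ⟨h0, h1⟩ hc.2.le
  nlinarith

/-- the slope at `0` is infinite -/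
lemma hh_slope (q M : ℝ) (hq : 0 < q) (hq1 : q ≤ 1 / 2) :
    ∃ t : ℝ, 0 < t ∧ t ≤ 1 ∧ t * M < hh (t * q) := by
  have hpi := Real.pi_pos
  have hpi3 := Real.pi_gt_three
  set K := |M| / q + 1 + |Real.log q| with hK
  have hK1 : 1 ≤ K := by
    have : 0 ≤ |M| / q := by positivity
    have := abs_nonneg (Real.log q)
    linarith
  have he : Real.exp (-K) ≤ q := by
    calc Real.exp (-K) ≤ Real.exp (Real.log q) := by
          apply Real.exp_le_exp.2
          have h1 : 0 ≤ |M| / q := by positivity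
          have := neg_abs_le (Real.log q)
          linarith
      _ = q := Real.exp_log hq
  set s := Real.arctan (Real.exp (-K)) / Real.pi with hs
  have hs0 : 0 < s := by
    have : 0 < Real.arctan (Real.exp (-K)) := Real.arctan_pos.2 (Real.exp_pos _)
    positivity
  have hs1 : s < 1 / 2 := by
    have := Real.arctan_lt_pi_div_two (Real.exp (-K))
    rw [hs, div_lt_iff₀ hpi]; linarith
  have hpis : Real.pi * s = Real.arctan (Real.exp (-K)) := by rw [hs]; field_simp
  have htan : Real.tan (Real.pi * s) = Real.exp (-K) := by rw [hpis, Real.tan_arctan]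
  have hlog : -Real.log (Real.tan (Real.pi * s)) = K := by rw [htan, Real.log_exp, neg_neg]
  have hsq : s ≤ q := by
    have h1 : Real.arctan (Real.exp (-K)) ≤ Real.exp (-K) := by
      have h2 := Real.lt_tan (Real.arctan_pos.2 (Real.exp_pos (-K)))
        (Real.arctan_lt_pi_div_two (Real.exp (-K)))
      rw [Real.tan_arctan] at h2
      exact h2.le
    rw [hs, div_le_iff₀ hpi]
    nlinarith [Real.exp_pos (-K)]
  refine ⟨s / q, by positivity, by rw [div_le_one hq]; exact hsq, ?_⟩
  rw [div_mul_cancel₀ _ hq.ne']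
  have h1 := hh_low hs0 hs1
  rw [hlog] at h1
  refine lt_of_lt_of_le ?_ h1
  have h2 : M < q * K := by
    have : q * K = |M| + q * (1 + |Real.log q|) := by rw [hK]; field_simp; ring
    rw [this]
    have := le_abs_self M
    have : 0 < q * (1 + |Real.log q|) := by positivity
    linarith
  calc s / q * M < s / q * (q * K) := mul_lt_mul_of_pos_left h2 (by positivity)
    _ = s * K := by field_simp

variable {c : ℕ}

lemma LR_zero {X : Net c} {b : Fin c} {i : Fin 6} (h : ∀ δ ∈ X.L, δ b i = 0) :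
    ∀ x ∈ X.LR, x b i = 0 := by
  intro x hx
  unfold Net.LR at hx
  refine Submodule.span_induction ?_ ?_ ?_ ?_ hx
  · rintro _ ⟨δ, hδ, rfl⟩
    simp [toR, h δ hδ]
  · simp
  · intro x y _ _ hx hy
    simp [hx, hy]
  · intro t x _ hx
    simp [hx]

lemma ang_le {X : Net c} {a : Fin c → Fin 6 → ℝ} (ha : a ∈ X.Ang) (b : Fin c) (i : Fin 6) :
    a b i ≤ 1 / 2 := by
  have h0 := ha.2.1 b 0
  have h1 := ha.2.1 b 1
  have h2 := ha.2.1 b 2
  have h3 := ha.2.1 b 3
  have h4 := ha.2.1 b 4
  have h5 := ha.2.1 b 5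
  obtain ⟨e1, e2⟩ := ha.2.2 b
  unfold n1 at e1
  unfold n2 at e2
  fin_cases i <;> simp only [Fin.zero_eta, Fin.mk_one, Fin.reduceFinMk] <;> linarith

lemma ang_compact (X : Net c) : IsCompact X.Ang := by
  refine IsCompact.of_isClosed_subset
    (isCompact_Icc (a := (fun _ _ => 0 : Fin c → Fin 6 → ℝ)) (b := fun _ _ => 1 / 2)) ?_ ?_
  · have c1 : IsClosed {a : Fin c → Fin 6 → ℝ | a - toR X.a0 ∈ X.LR} := by
      have : IsClosed (X.LR : Set (Fin c → Fin 6 → ℝ)) := X.LR.closed_of_finiteDimensional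
      exact this.preimage (continuous_id.sub continuous_const)
    have c2 : IsClosed {a : Fin c → Fin 6 → ℝ | ∀ b i, 0 ≤ a b i} := by
      simp only [Set.ofPred_forall]
      refine isClosed_iInter fun b => isClosed_iInter fun i => ?_
      exact isClosed_le continuous_const (by fun_prop)
    have c3 : IsClosed {a : Fin c → Fin 6 → ℝ | ∀ b, n1 (a b) = 1 / 2 ∧ n2 (a b) = 1 / 2} := by
      simp only [Set.ofPred_forall, Set.ofPred_and, n1, n2]
      refine isClosed_iInter fun b => IsClosed.inter ?_ ?_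
      · exact isClosed_eq (by fun_prop) continuous_const
      · exact isClosed_eq (by fun_prop) continuous_const
    exact c1.inter (c2.inter c3)
  · intro a ha
    exact ⟨fun b i => ha.2.1 b i, fun b i => ang_le ha b i⟩

lemma fV_cont : Continuous (fV : (Fin c → Fin 6 → ℝ) → ℝ) := by
  unfold fV
  have := hh_cont
  fun_prop

lemma ang_convex {X : Net c} {a p : Fin c → Fin 6 → ℝ} (ha : a ∈ X.Ang) (hp : p ∈ X.Ang) {t : ℝ}
    (h0 : 0 ≤ t) (h1 : t ≤ 1) : (1 - t) • a + t • p ∈ X.Ang := by
  refine ⟨?_, ?_, ?_⟩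
  · have e : (1 - t) • a + t • p - toR X.a0 = (1 - t) • (a - toR X.a0) + t • (p - toR X.a0) := by
      rw [smul_sub, smul_sub, sub_smul, one_smul, sub_smul, one_smul]
      abel
    rw [e]
    exact X.LR.add_mem (X.LR.smul_mem _ ha.1) (X.LR.smul_mem _ hp.1)
  · intro b i
    have := ha.2.1 b i
    have := hp.2.1 b i
    simp only [Pi.add_apply, Pi.smul_apply, smul_eq_mul]
    have : 0 ≤ 1 - t := by linarith
    positivity
  · intro b
    obtain ⟨e1, e2⟩ := ha.2.2 b
    obtain ⟨e3, e4⟩ := hp.2.2 b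
    unfold n1 at *
    unfold n2 at *
    simp only [Pi.add_apply, Pi.smul_apply, smul_eq_mul]
    constructor
    · linear_combination (1 - t) * e1 + t * e3
    · linear_combination (1 - t) * e2 + t * e4

end MX

open MX in
/-- **Lemma MAX.** -/
theorem task_MAX : S_MAX := by
  intro c X p hp
  obtain ⟨a, ha, hmax⟩ := (ang_compact X).exists_isMaxOn ⟨p, hp.ang⟩ fV_cont.continuousOn
  have hmax' : ∀ a' ∈ X.Ang, fV a' ≤ fV a := fun a' h => hmax h
  refine ⟨a, ha, fun b i => ⟨fun h => ?_, fun h => ?_⟩, hmax'⟩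
  · by_contra hne
    have hq : 0 < p b i := lt_of_le_of_ne (hp.ang.2.1 b i) (Ne.symm hne)
    obtain ⟨t, ht0, ht1, ht⟩ := hh_slope (p b i) (fV a - fV p + hh (p b i)) hq (ang_le hp.ang b i)
    have h1 := hmax' _ (ang_convex ha hp.ang ht0.le ht1)
    have key : ∀ b' i', (1 - t) * hh (a b' i') + t * hh (p b' i') ≤
        hh (((1 - t) • a + t • p) b' i') := by
      intro b' i'
      have m1 : a b' i' ∈ Set.Icc (0 : ℝ) (1 / 2) := ⟨ha.2.1 b' i', ang_le ha b' i'⟩
      have m2 : p b' i' ∈ Set.Icc (0 : ℝ) (1 / 2) := ⟨hp.ang.2.1 b' i', ang_le hp.ang b' i'⟩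
      have m3 : 0 ≤ 1 - t := by linarith
      have m4 : 1 - t + t = 1 := by ring
      have := hh_concave.2 m1 m2 m3 ht0.le m4
      simpa using this
    have h2 : hh (((1 - t) • a + t • p) b i) - ((1 - t) * hh (a b i) + t * hh (p b i)) ≤
        ∑ b', ∑ i', (hh (((1 - t) • a + t • p) b' i') -
          ((1 - t) * hh (a b' i') + t * hh (p b' i'))) := by
      have s1 : hh (((1 - t) • a + t • p) b i) - ((1 - t) * hh (a b i) + t * hh (p b i)) ≤
          ∑ i', (hh (((1 - t) • a + t • p) b i') - ((1 - t) * hh (a b i') + t * hh (p b i'))) :=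
        Finset.single_le_sum (f := fun i' => hh (((1 - t) • a + t • p) b i') -
          ((1 - t) * hh (a b i') + t * hh (p b i'))) (fun i' _ => by
            have := key b i'; linarith) (mem_univ i)
      refine s1.trans ?_
      exact Finset.single_le_sum (f := fun b' => ∑ i', (hh (((1 - t) • a + t • p) b' i') -
          ((1 - t) * hh (a b' i') + t * hh (p b' i')))) (fun b' _ =>
            Finset.sum_nonneg fun i' _ => by have := key b' i'; linarith) (mem_univ b)
    have h3 : ∑ b', ∑ i', (hh (((1 - t) • a + t • p) b' i') -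
          ((1 - t) * hh (a b' i') + t * hh (p b' i'))) =
        fV ((1 - t) • a + t • p) - ((1 - t) * fV a + t * fV p) := by
      unfold fV
      simp only [Finset.sum_sub_distrib, Finset.sum_add_distrib, Finset.mul_sum]
    rw [h3, h, hh_zero] at h2
    have h4 : ((1 - t) • a + t • p) b i = t * p b i := by simp [h]
    rw [h4] at h2
    nlinarith
  · have h1 := LR_zero (X := X) (fun δ hδ => hp.zero δ hδ b i h) (a - p) (by
      have e : a - p = (a - toR X.a0) - (p - toR X.a0) := by abel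
      rw [e]
      exact X.LR.sub_mem ha.1 hp.ang.1)
    simp only [Pi.sub_apply, h, sub_zero] at h1
    exact h1

end Pool.Agent.Q99.FAL
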