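import Pool.Agent.Q99.FAL.Stm3
import Pool.Agent.Q151.FW.TriA
import Pool.Agent.W719.BS.Lim

/-!
# Project FAL: Gaussian bound and limit of a `q`-binomial coefficient (lemmas T1, T2, helper151)
-/

set_option autoImplicit false

namespace Pool.Agent.Q99.FAL

open Matrix Finset Filter Topology MeasureTheory
open Pool.Agent.W719.BS (D LL er PP PP_mid PP_unif D_pos er_tendsto LL_exp LL_cont)
open Pool.Agent.W358.BSTay (gg gg_deriv)
open Pool.Agent.Q151.FW (quad tan tri_exp tri_pos pp_bound gg_half)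
open Pool.Agent.Q99.FW (Tri TZ)

namespace T12

lemma cot_near {α m : ℝ} (h : m * Real.sin (Real.pi * α) < Real.cos (Real.pi * α)) :
    ∃ r : ℝ, 0 < r ∧ ∀ t : ℝ, |t - α| < r →
      m * Real.sin (Real.pi * t) ≤ Real.cos (Real.pi * t) := by
  have hc : Continuous (fun t : ℝ => Real.cos (Real.pi * t) - m * Real.sin (Real.pi * t)) := by
    fun_prop
  have h1 : ∀ᶠ t in 𝓝 α, 0 < Real.cos (Real.pi * t) - m * Real.sin (Real.pi * t) :=
    hc.continuousAt.eventually (lt_mem_nhds (by linarith))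
  obtain ⟨r, hr, h2⟩ := Metric.eventually_nhds_iff.1 h1
  refine ⟨r, hr, fun t ht => ?_⟩
  have := h2 (y := t) (by rwa [Real.dist_eq])
  linarith

lemma quad' {A c r x : ℝ} (hA0 : r < A) (hA1 : A < 1 - r) (hr : 0 < r)
    (hc : ∀ t : ℝ, |t - A| < r → c * Real.sin (Real.pi * t) ≤ Real.cos (Real.pi * t))
    (hx : |x - A| < r) :
    LL A + gg A * (x - A) + Real.pi / 2 * c * (x - A) ^ 2 ≤ LL x := by
  rw [abs_lt] at hx
  exact quad (lo := A - r) (hi := A + r) (by linarith) (by linarith)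
    (fun t ht => hc t (by rw [abs_lt]; exact ⟨by linarith [ht.1], by linarith [ht.2]⟩))
    ⟨by linarith, by linarith⟩ ⟨by linarith, by linarith⟩

/-- the local form of the strict inequality -/
lemma loc {α : ℝ} (h0 : 0 < α) (h1 : α < 1 / 2) : ∃ r κ : ℝ, 0 < r ∧ 0 < κ ∧
    r < α ∧ r < 1 / 2 - α ∧ ∀ a b c : ℝ, a + b + c = 1 → |a - α| < r → |b - (1 / 2 - α)| < r →
      |c - 1 / 2| < r →
    -(LL a + LL b + LL c) ≤ hh α - gg α * (a - α) - gg (1 / 2 - α) * (b - (1 / 2 - α))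
      - Real.log 2 * (c - 1 / 2)
      - κ * ((a - α) ^ 2 + (b - (1 / 2 - α)) ^ 2 + (c - 1 / 2) ^ 2) := by
  have hpi := Real.pi_pos
  have s1 : 0 < Real.sin (Real.pi * α) :=
    Real.sin_pos_of_pos_of_lt_pi (by positivity) (by nlinarith)
  have s2 : 0 < Real.cos (Real.pi * α) :=
    Real.cos_pos_of_mem_Ioo ⟨by nlinarith, by nlinarith⟩
  have e1 : Real.pi * (1 / 2 - α) = Real.pi / 2 - Real.pi * α := by ring
  obtain ⟨m, hm0, hm1, hm2⟩ : ∃ m : ℝ, 0 < m ∧
      m * Real.sin (Real.pi * α) < Real.cos (Real.pi * α) ∧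
      m * Real.cos (Real.pi * α) < Real.sin (Real.pi * α) := by
    refine ⟨min (Real.cos (Real.pi * α) / Real.sin (Real.pi * α))
      (Real.sin (Real.pi * α) / Real.cos (Real.pi * α)) / 2, by positivity, ?_, ?_⟩
    · have := min_le_left (Real.cos (Real.pi * α) / Real.sin (Real.pi * α))
        (Real.sin (Real.pi * α) / Real.cos (Real.pi * α))
      rw [le_div_iff₀ s1] at this
      linarith
    · have := min_le_right (Real.cos (Real.pi * α) / Real.sin (Real.pi * α))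
        (Real.sin (Real.pi * α) / Real.cos (Real.pi * α))
      rw [le_div_iff₀ s2] at this
      linarith
  obtain ⟨r1, hr1, c1⟩ := cot_near hm1
  obtain ⟨r2, hr2, c2⟩ := cot_near (α := 1 / 2 - α) (m := m) (by
    rw [e1, Real.sin_pi_div_two_sub, Real.cos_pi_div_two_sub]; exact hm2)
  obtain ⟨r3, hr3, c3⟩ := cot_near (α := 1 / 2) (m := -(m / 8)) (by
    have : Real.pi * (1 / 2) = Real.pi / 2 := by ring
    rw [this, Real.sin_pi_div_two, Real.cos_pi_div_two]; linarith)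
  obtain ⟨r, hr, l1, l2, l3, l4, l5⟩ : ∃ r : ℝ, 0 < r ∧ r ≤ r1 ∧ r ≤ r2 ∧ r ≤ r3 ∧ r < α ∧
      r < 1 / 2 - α := by
    refine ⟨min (min r1 r2) (min r3 (min (α / 2) ((1 / 2 - α) / 2))), ?_, ?_, ?_, ?_, ?_, ?_⟩
    · have : 0 < 1 / 2 - α := by linarith
      positivity
    · exact (min_le_left _ _).trans (min_le_left _ _)
    · exact (min_le_left _ _).trans (min_le_right _ _)
    · exact (min_le_right _ _).trans (min_le_left _ _)
    · have := (min_le_right (min r1 r2) (min r3 (min (α / 2) ((1 / 2 - α) / 2)))).trans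
        ((min_le_right _ _).trans (min_le_left _ _))
      linarith
    · have := (min_le_right (min r1 r2) (min r3 (min (α / 2) ((1 / 2 - α) / 2)))).trans
        ((min_le_right _ _).trans (min_le_right _ _))
      linarith
  refine ⟨r, Real.pi * m / 16, hr, by positivity, l4, l5, fun a b c hs ha hb hc => ?_⟩
  have q1 := quad' (A := α) (c := m) l4 (by linarith) hr
    (fun t ht => c1 t (ht.trans_le l1)) ha
  have q2 := quad' (A := 1 / 2 - α) (c := m) l5 (by linarith) hr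
    (fun t ht => c2 t (ht.trans_le l2)) hb
  have q3 := quad' (A := 1 / 2) (c := -(m / 8)) (by linarith) (by linarith) hr
    (fun t ht => c3 t (ht.trans_le l3)) hc
  rw [gg_half, Pool.Agent.W51.BS.LL_half] at q3
  have h4 : (c - 1 / 2) = -((a - α) + (b - (1 / 2 - α))) := by linarith
  set x := a - α with hx
  set y := b - (1 / 2 - α) with hy
  have h5 : 1 / 8 * (x ^ 2 + y ^ 2 + (c - 1 / 2) ^ 2) ≤ x ^ 2 + y ^ 2 - 1 / 8 * (c - 1 / 2) ^ 2 := by
    rw [h4]
    nlinarith [sq_nonneg (x - y), sq_nonneg x, sq_nonneg y, sq_nonneg (x + y)]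
  have h6 := mul_le_mul_of_nonneg_left h5 (by positivity : 0 ≤ Real.pi / 2 * m)
  unfold hh
  linarith

/-- the strict inequality -/
lemma glob {α : ℝ} (h0 : 0 < α) (h1 : α < 1 / 2) : ∃ κ : ℝ, 0 < κ ∧ ∀ a b c : ℝ,
    0 ≤ a → 0 ≤ b → 0 ≤ c → a + b + c = 1 →
    -(LL a + LL b + LL c) ≤ hh α - gg α * (a - α) - gg (1 / 2 - α) * (b - (1 / 2 - α))
      - Real.log 2 * (c - 1 / 2)
      - κ * ((a - α) ^ 2 + (b - (1 / 2 - α)) ^ 2 + (c - 1 / 2) ^ 2) := by
  obtain ⟨r, κ, hr, hκ, l4, l5, hloc⟩ := loc h0 h1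
  set β := 1 / 2 - α with hβ
  have hβ0 : 0 < β := by linarith
  obtain ⟨t, ht0, htr, ht1⟩ : ∃ t : ℝ, 0 < t ∧ t < r ∧ t < 1 :=
    ⟨r / 2, by positivity, by linarith, by linarith⟩
  refine ⟨t * κ, by positivity, fun a b c ha hb hc hs => ?_⟩
  have ha1 : a ≤ 1 := by linarith
  have hb1 : b ≤ 1 := by linarith
  have hc1 : c ≤ 1 := by linarith
  have ea : a * t + α * (1 - t) - α = t * (a - α) := by ring
  have eb : b * t + β * (1 - t) - β = t * (b - β) := by ring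
  have ec : c * t + 1 / 2 * (1 - t) - 1 / 2 = t * (c - 1 / 2) := by ring
  have habs : ∀ u : ℝ, -1 ≤ u → u ≤ 1 → |t * u| < r := by
    intro u h1 h2
    rw [abs_mul, abs_of_pos ht0]
    have : |u| ≤ 1 := abs_le.2 ⟨h1, h2⟩
    nlinarith [abs_nonneg u]
  have p1 := hloc (a * t + α * (1 - t)) (b * t + β * (1 - t))
    (c * t + 1 / 2 * (1 - t)) (by linear_combination t * hs + (1 - t) * hβ)
    (by rw [ea]; exact habs _ (by linarith) (by linarith))
    (by rw [eb]; exact habs _ (by linarith) (by linarith))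
    (by rw [ec]; exact habs _ (by linarith) (by linarith))
  have ht1' : 0 < 1 - t := by linarith
  have g1 : 0 < a * t + α * (1 - t) := by positivity
  have g2 : 0 < b * t + β * (1 - t) := by positivity
  have g3 : 0 < c * t + 1 / 2 * (1 - t) := by positivity
  have gs : a * t + α * (1 - t) + (b * t + β * (1 - t)) + (c * t + 1 / 2 * (1 - t)) = 1 := by
    linear_combination t * hs + (1 - t) * hβ
  have p2 := tan (x' := a) (y' := b) (z' := c) g1 g2 g3 gs ha hb hc hs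
  have p3 := tan (x' := α) (y' := β) (z' := 1 / 2) g1 g2 g3 gs h0.le hβ0.le (by norm_num)
    (by linarith)
  rw [ea, eb, ec] at p1
  rw [Pool.Agent.W51.BS.LL_half] at p3
  have hhα : hh α = -(LL α + LL β) := rfl
  have h4 : t * (-(LL a + LL b + LL c)) + (1 - t) * hh α ≤
      -(LL (a * t + α * (1 - t)) + LL (b * t + β * (1 - t)) + LL (c * t + 1 / 2 * (1 - t))) := by
    have h5 := mul_le_mul_of_nonneg_left p2 ht0.le
    have h6 := mul_le_mul_of_nonneg_left p3 ht1'.le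
    have h7 := add_le_add h5 h6
    refine le_trans (le_of_eq ?_) (h7.trans (le_of_eq ?_))
    · rw [hhα]; ring
    · ring
  have h8 : t * (-(LL a + LL b + LL c)) ≤ t * (hh α - gg α * (a - α) - gg β * (b - β)
      - Real.log 2 * (c - 1 / 2)
      - t * κ * ((a - α) ^ 2 + (b - β) ^ 2 + (c - 1 / 2) ^ 2)) := by
    have h9 : κ * ((t * (a - α)) ^ 2 + (t * (b - β)) ^ 2 + (t * (c - 1 / 2)) ^ 2)
        = t * (t * κ * ((a - α) ^ 2 + (b - β) ^ 2 + (c - 1 / 2) ^ 2)) := by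
      ring
    rw [h9] at p1
    linarith
  exact le_of_mul_le_mul_left h8 ht0

lemma gg_eq {α : ℝ} (h0 : 0 < α) (h1 : α < 1 / 2) :
    gg α = Real.log 2 + Real.log (Real.sin (Real.pi * α)) ∧
    gg (1 / 2 - α) = Real.log 2 + Real.log (Real.cos (Real.pi * α)) ∧
    Real.log (Real.tan (Real.pi * α)) =
      Real.log (Real.sin (Real.pi * α)) - Real.log (Real.cos (Real.pi * α)) := by
  have hpi := Real.pi_pos
  have s1 : 0 < Real.sin (Real.pi * α) :=
    Real.sin_pos_of_pos_of_lt_pi (by positivity) (by nlinarith)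
  have s2 : 0 < Real.cos (Real.pi * α) :=
    Real.cos_pos_of_mem_Ioo ⟨by nlinarith, by nlinarith⟩
  have e1 : Real.pi * (1 / 2 - α) = Real.pi / 2 - Real.pi * α := by ring
  refine ⟨?_, ?_, ?_⟩
  · unfold gg
    rw [Real.log_mul two_ne_zero s1.ne']
  · unfold gg
    rw [e1, Real.sin_pi_div_two_sub, Real.log_mul two_ne_zero s2.ne']
  · rw [Real.tan_eq_sin_div_cos, Real.log_div s1.ne' s2.ne']

lemma sq_half (u : ℝ) {N : ℝ} (hN1 : 1 ≤ N) : u ^ 2 / N / 2 - 1 / 4 ≤ (u + 1 / 2) ^ 2 / N := by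
  have a1 : u ^ 2 / 2 - 1 / 4 ≤ (u + 1 / 2) ^ 2 := by nlinarith [sq_nonneg (u + 1)]
  have a2 : (u ^ 2 / 2 - 1 / 4) / N ≤ (u + 1 / 2) ^ 2 / N := by gcongr
  have a3 : (1 : ℝ) / 4 / N ≤ 1 / 4 := div_le_self (by norm_num) hN1
  have a4 : (u ^ 2 / 2 - 1 / 4) / N = u ^ 2 / N / 2 - 1 / 4 / N := by ring
  linarith

lemma sq_one (u : ℝ) {N : ℝ} (hN1 : 1 ≤ N) : u ^ 2 / N / 2 - 1 ≤ (-u - 1) ^ 2 / N := by
  have a1 : u ^ 2 / 2 - 1 ≤ (-u - 1) ^ 2 := by nlinarith [sq_nonneg (u + 2)]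
  have a2 : (u ^ 2 / 2 - 1) / N ≤ (-u - 1) ^ 2 / N := by gcongr
  have a3 : (1 : ℝ) / N ≤ 1 := div_le_self (by norm_num) hN1
  have a4 : (u ^ 2 / 2 - 1) / N = u ^ 2 / N / 2 - 1 / N := by ring
  linarith

end T12

open T12 in
/-- **Lemma T1.** -/
theorem task_T1 : S_T1 := by
  intro α h0 h1
  obtain ⟨C₀, hC₀⟩ := Pool.Agent.W51.BS.task_stir.1
  obtain ⟨κ, hκ0, hglob⟩ := glob h0 h1
  obtain ⟨K, hK⟩ := pp_bound (half_pos hκ0)
  obtain ⟨g1, g2, g3⟩ := gg_eq h0 h1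
  set ls := Real.log (Real.sin (Real.pi * α)) with hls
  set lc := Real.log (Real.cos (Real.pi * α)) with hlc
  refine ⟨Real.exp (3 * C₀ + K + 2 * κ - 1 / 2 * (ls + lc)), κ / 4, (Real.exp_pos _).le,
    by positivity, ?_⟩
  intro N n k hN1'
  have hN1 : (1 : ℝ) ≤ N := by exact_mod_cast hN1'
  have hN : (0 : ℝ) < N := by linarith
  unfold bq TZ
  split_ifs with hx
  swap
  · rw [mul_zero]; positivity
  obtain ⟨hx1, hx2, hx3⟩ := hx
  obtain ⟨x, rfl⟩ := Int.eq_ofNat_of_zero_le hx1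
  obtain ⟨y, hy⟩ := Int.eq_ofNat_of_zero_le hx2
  obtain ⟨z, hz⟩ := Int.eq_ofNat_of_zero_le hx3
  obtain rfl : n = x + y := by omega
  have h : x + y + z + 1 = N := by omega
  have t1 : ((x : ℕ) : ℤ).toNat = x := Int.toNat_natCast x
  have t2 : ((x : ℤ) + y - (x : ℕ)).toNat = y := by omega
  have t3 : ((N : ℤ) - 1 - ((x : ℤ) + y)).toNat = z := by omega
  rw [t1, t2, t3, tri_exp h, ← Real.exp_add]
  apply Real.exp_le_exp.2
  have e1 : -C₀ ≤ er N x := (abs_le.1 (hC₀ N x (by omega))).1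
  have e2 : -C₀ ≤ er N y := (abs_le.1 (hC₀ N y (by omega))).1
  have e3 : -C₀ ≤ er N z := (abs_le.1 (hC₀ N z (by omega))).1
  have hsum : (x : ℝ) + y + z + 1 = N := by exact_mod_cast h
  have hg := hglob (((x : ℝ) + 1 / 2) / N) (((y : ℝ) + 1 / 2) / N) ((z : ℝ) / N)
    (by positivity) (by positivity) (by positivity) (by
      field_simp
      linarith)
  have hg2 := mul_le_mul_of_nonneg_left hg hN.le
  have hp := hK N z (by omega)
  have hpp : PP N z = N * (LL (z / N) - LL ((z + 1 / 2) / N)) := rfl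
  -- the quadratic terms
  have q1 : (N : ℝ) * (((x : ℝ) + 1 / 2) / N - α) ^ 2 = (x - N * α + 1 / 2) ^ 2 / N := by
    field_simp
    ring
  have q2 : (N : ℝ) * (((y : ℝ) + 1 / 2) / N - (1 / 2 - α)) ^ 2 =
      (y - N * (1 / 2 - α) + 1 / 2) ^ 2 / N := by
    field_simp
    ring
  have q3 : (N : ℝ) * ((z : ℝ) / N - 1 / 2) ^ 2 = (-((x : ℝ) + y - N / 2) - 1) ^ 2 / N := by
    have : (z : ℝ) = N - 1 - x - y := by linarith
    rw [this]
    field_simp
    ring
  have r0 : (N : ℝ) * (((x : ℝ) + 1 / 2) / N - α) = x - N * α + 1 / 2 := by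
    field_simp
    ring
  have r1 : (N : ℝ) * (((y : ℝ) + 1 / 2) / N - (1 / 2 - α)) = y - N * (1 / 2 - α) + 1 / 2 := by
    field_simp
    ring
  have r2 : (N : ℝ) * ((z : ℝ) / N - 1 / 2) = z - N / 2 := by
    field_simp
  have s1 := sq_half ((x : ℝ) - N * α) hN1
  have s2 := sq_one ((x : ℝ) + y - N / 2) hN1
  rw [q3] at hp
  have s4 := mul_le_mul_of_nonneg_left s1 hκ0.le
  have s5 := mul_le_mul_of_nonneg_left s2 hκ0.le
  have s7 : 0 ≤ κ * (((x : ℝ) - N * α) ^ 2 / N) := by positivity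
  have s8 : 0 ≤ κ * (((y : ℝ) - N * (1 / 2 - α) + 1 / 2) ^ 2 / N) := by positivity
  have t1 : (N : ℝ) * (hh α - gg α * (((x : ℝ) + 1 / 2) / N - α) -
      gg (1 / 2 - α) * (((y : ℝ) + 1 / 2) / N - (1 / 2 - α))
      - Real.log 2 * ((z : ℝ) / N - 1 / 2) - κ * ((((x : ℝ) + 1 / 2) / N - α) ^ 2 +
        (((y : ℝ) + 1 / 2) / N - (1 / 2 - α)) ^ 2 + ((z : ℝ) / N - 1 / 2) ^ 2))
      = N * hh α - gg α * (x - N * α + 1 / 2) - gg (1 / 2 - α) * (y - N * (1 / 2 - α) + 1 / 2)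
        - Real.log 2 * (z - N / 2)
        - κ * ((x - N * α + 1 / 2) ^ 2 / N) - κ * ((y - N * (1 / 2 - α) + 1 / 2) ^ 2 / N)
        - κ * ((-((x : ℝ) + y - N / 2) - 1) ^ 2 / N) := by
    rw [← q1, ← q2, ← q3, ← r0, ← r1, ← r2]
    ring
  rw [t1] at hg2
  have t2 : κ / 4 * (((x : ℝ) - N * α) ^ 2 + ((x : ℝ) + y - N / 2) ^ 2) / N
      = κ / 4 * (((x : ℝ) - N * α) ^ 2 / N) + κ / 4 * (((x : ℝ) + y - N / 2) ^ 2 / N) := by ring
  rw [hpp] at hp
  rw [g1, g2] at hg2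
  have t3 : (z : ℝ) = N - 1 - x - y := by linarith
  rw [g3]
  push_cast
  have lin : -((Real.log 2 + ls) * ((x : ℝ) - N * α + 1 / 2)) -
      (Real.log 2 + lc) * (y - N * (1 / 2 - α) + 1 / 2) - Real.log 2 * (z - N / 2) =
      -((ls - lc) * (x - N * α)) - lc * (x + y - N / 2) - 1 / 2 * (ls + lc) := by
    rw [t3]; ring
  have t4 : -(κ / 4 * (((x : ℝ) - N * α) ^ 2 + ((x : ℝ) + y - N / 2) ^ 2) / N) =
      -(κ / 4) * (((x : ℝ) - N * α) ^ 2 + ((x : ℝ) + y - N / 2) ^ 2) / N := by ring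
  linarith

open T12 in
/-- **Lemma T2.** -/
theorem task_T2 : S_T2 := by
  intro α h0 h1 n k X Y hX' hY'
  have hST := Pool.Agent.W51.BS.task_stir
  have hTAY := Pool.Agent.W358.BSTay.tay
  have hpi := Real.pi_pos
  obtain ⟨g1, g2, g3⟩ := gg_eq h0 h1
  have s1 : 0 < Real.sin (Real.pi * α) :=
    Real.sin_pos_of_pos_of_lt_pi (by positivity) (by nlinarith)
  have s2 : 0 < Real.cos (Real.pi * α) :=
    Real.cos_pos_of_mem_Ioo ⟨by nlinarith, by nlinarith⟩
  set β := 1 / 2 - α with hβ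
  have hβ0 : 0 < β := by linarith
  have hsq : Tendsto (fun N : ℕ => √(N : ℝ)) atTop atTop :=
    Real.tendsto_sqrt_atTop.comp tendsto_natCast_atTop_atTop
  have hX0 : Tendsto (fun N : ℕ => ((k N : ℝ) - α * N) / √N) atTop (𝓝 X) := by
    refine hX'.congr fun N => ?_
    rw [mul_comm]
  have hY0 : Tendsto (fun N : ℕ => (((n N - k N : ℤ) : ℝ) - β * N) / √N) atTop (𝓝 (Y - X)) := by
    refine (hY'.sub hX').congr fun N => ?_
    push_cast
    rw [← sub_div, hβ]
    congr 1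
    ring
  have hZ0 : Tendsto (fun N : ℕ => ((((N : ℤ) - 1 - n N : ℤ) : ℝ) - 1 / 2 * N) / √N) atTop
      (𝓝 (-Y - 0)) := by
    refine (hY'.neg.sub (tendsto_inv_atTop_zero.comp hsq)).congr fun N => ?_
    push_cast
    simp only [Function.comp]
    rw [inv_eq_one_div, ← neg_div, ← sub_div]
    congr 1
    ring
  obtain ⟨px, hX⟩ := Pool.Agent.W719.BS.toNat_tendsto k α X h0 hX0
  obtain ⟨py, hY⟩ := Pool.Agent.W719.BS.toNat_tendsto (fun N => n N - k N) β (Y - X) hβ0 hY0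
  obtain ⟨pz, hZ⟩ := Pool.Agent.W719.BS.toNat_tendsto (fun N => (N : ℤ) - 1 - n N) (1 / 2)
    (-Y - 0) (by norm_num) hZ0
  have E1 := er_tendsto hST (fun N => (k N).toNat) α h0 (by linarith)
    (Pool.Agent.W719.BS.ratio_of_sq _ _ _ hX)
  have E2 := er_tendsto hST (fun N => (n N - k N).toNat) β hβ0 (by linarith)
    (Pool.Agent.W719.BS.ratio_of_sq _ _ _ hY)
  have E3 := er_tendsto hST (fun N => ((N : ℤ) - 1 - n N).toNat) (1 / 2) (by norm_num) (by norm_num)
    (Pool.Agent.W719.BS.ratio_of_sq _ _ _ hZ)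
  have T1 := LL_exp hTAY α h0 (by linarith) _ X hX
  have T2 := LL_exp hTAY β hβ0 (by linarith) _ (Y - X) hY
  have T3 := LL_exp hTAY (1 / 2) (by norm_num) (by norm_num) _ _ hZ
  have a3 : Real.pi * (1 / 2) = Real.pi / 2 := by ring
  have eβ : Real.pi * β = Real.pi / 2 - Real.pi * α := by rw [hβ]; ring
  have l1 : Real.log (2 * Real.sin (Real.pi * α)) = gg α := rfl
  have l2 : Real.log (2 * Real.sin (Real.pi * β)) = gg β := rfl
  have l3 : Real.log (2 * Real.sin (Real.pi * (1 / 2))) = Real.log 2 := gg_half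
  have k1 : Real.pi * Real.cos (Real.pi * α) / (2 * Real.sin (Real.pi * α)) * X ^ 2 =
      Real.pi / 2 * (Real.cot (Real.pi * α) * X ^ 2) := by
    rw [Real.cot_eq_cos_div_sin]
    field_simp
  have k2 : Real.pi * Real.cos (Real.pi * β) / (2 * Real.sin (Real.pi * β)) * (Y - X) ^ 2 =
      Real.pi / 2 * (Real.tan (Real.pi * α) * (Y - X) ^ 2) := by
    rw [eβ, Real.cos_pi_div_two_sub, Real.sin_pi_div_two_sub, Real.tan_eq_sin_div_cos]
    field_simp
  have k3 : Real.pi * Real.cos (Real.pi * (1 / 2)) / (2 * Real.sin (Real.pi * (1 / 2))) *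
      (-Y - 0) ^ 2 = 0 := by
    rw [a3, Real.cos_pi_div_two]
    simp
  rw [l1, k1] at T1
  rw [l2, k2] at T2
  rw [l3, k3] at T3
  set ls := Real.log (Real.sin (Real.pi * α)) with hls
  set lc := Real.log (Real.cos (Real.pi * α)) with hlc
  have F := (((T1.add T2).add T3).neg.sub ((E1.add E2).add E3)).sub_const
    (1 / 2 * (Real.log 2 + ls + lc))
  have G := F.rexp
  have hlim : Real.exp (-(Real.pi / 2 * (Real.cot (Real.pi * α) * X ^ 2) +
      Real.pi / 2 * (Real.tan (Real.pi * α) * (Y - X) ^ 2) + 0) -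
      (0 + 0 + 0) - 1 / 2 * (Real.log 2 + ls + lc)) =
      1 / √(Real.sin (2 * Real.pi * α)) * Real.exp (-(Real.pi / 2) *
      (Real.cot (Real.pi * α) * X ^ 2 + Real.tan (Real.pi * α) * (Y - X) ^ 2)) := by
    have h5 : Real.sin (2 * Real.pi * α) = 2 * Real.sin (Real.pi * α) * Real.cos (Real.pi * α) := by
      rw [mul_assoc, Real.sin_two_mul]
    have h1 : 1 / √(Real.sin (2 * Real.pi * α)) = Real.exp (-(1 / 2 * (Real.log 2 + ls + lc))) := by
      have h2 : Real.log √(Real.sin (2 * Real.pi * α)) = 1 / 2 * (Real.log 2 + ls + lc) := by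
        rw [h5, Real.log_sqrt (by positivity), Real.log_mul (by positivity) s2.ne',
          Real.log_mul two_ne_zero s1.ne']
        ring
      rw [Real.exp_neg, ← h2, Real.exp_log (by rw [h5]; positivity), one_div]
    rw [h1, ← Real.exp_add]
    congr 1
    ring
  rw [hlim] at G
  refine G.congr' ?_
  filter_upwards [px, py, pz, eventually_ge_atTop 1] with N px py pz hN
  have hb : bq N (n N) (k N) = Tri N (k N).toNat (n N - k N).toNat ((N : ℤ) - 1 - n N).toNat := by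
    unfold bq TZ
    rw [if_pos ⟨px, py, pz⟩]
  have h : (k N).toNat + (n N - k N).toNat + ((N : ℤ) - 1 - n N).toNat + 1 = N := by omega
  have c1 : (((k N).toNat : ℕ) : ℝ) = k N := by
    have : (((k N).toNat : ℤ) : ℝ) = (k N : ℝ) := by rw [Int.toNat_of_nonneg px]
    rwa [Int.cast_natCast] at this
  have c2 : (((n N - k N).toNat : ℕ) : ℝ) = n N - k N := by
    have : (((n N - k N).toNat : ℤ) : ℝ) = ((n N - k N : ℤ) : ℝ) := by rw [Int.toNat_of_nonneg py]
    rw [Int.cast_natCast] at this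
    rw [this]; push_cast; ring
  have c3 : (((((N : ℤ) - 1 - n N).toNat : ℕ)) : ℝ) = N - 1 - n N := by
    have : ((((N : ℤ) - 1 - n N).toNat : ℤ) : ℝ) = (((N : ℤ) - 1 - n N : ℤ) : ℝ) := by
      rw [Int.toNat_of_nonneg pz]
    rw [Int.cast_natCast] at this
    rw [this]; push_cast; ring
  rw [hb, tri_exp h, ← Real.exp_add]
  congr 1
  have hhα : hh α = -(LL α + LL β) := rfl
  rw [hhα, Pool.Agent.W51.BS.LL_half, g1, g2, g3, c1, c2, c3]
  ring

end Pool.Agent.Q99.FAL
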